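import Pool.Agent.helper48.FL.P75

/-!
# Long runs of the automaton and the main estimate for `⌊z (7/5)^n⌋`
-/

namespace Pool.Agent.helper48.FL75

variable {z : ℝ}

/-- The state. -/
noncomputable def st (z : ℝ) (n : ℕ) : ℕ := (ix z n * 11 + r11 z n) * 13 + r13 z n

theorem st_inj {n m : ℕ} (h : st z n = st z m) :
    ix z n = ix z m ∧ r11 z n = r11 z m ∧ r13 z n = r13 z m := by
  have a1 : r11 z n < 11 := by unfold r11; omega
  have a2 : r13 z n < 13 := by unfold r13; omega
  have b1 : r11 z m < 11 := by unfold r11; omega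
  have b2 : r13 z m < 13 := by unfold r13; omega
  unfold st at h
  omega

/-- A constant rank forces the letters to repeat. -/
theorem run_periodic {k0 k1 k m : ℕ} (hst : ∀ n, k0 ≤ n → n < k1 → Step z n)
    (hR : ∀ n, k0 ≤ n → n ≤ k1 → RR z n = RR z k0) (hk : k0 ≤ k) (hs : st z (k + m) = st z k) :
    ∀ j, k + m + j ≤ k1 → ix z (k + m + j) = ix z (k + j) ∧ r11 z (k + m + j) = r11 z (k + j) ∧
      r13 z (k + m + j) = r13 z (k + j) ∧ ∀ i < j, uu z (k + m + i) = uu z (k + i) := by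
  intro j
  induction j with
  | zero =>
    intro _
    obtain ⟨h1, h2, h3⟩ := st_inj hs
    exact ⟨h1, h2, h3, fun i hi' => absurd hi' (Nat.not_lt_zero i)⟩
  | succ j ih =>
    intro hj
    obtain ⟨h1, h2, h3, h4⟩ := ih (by omega)
    have s1 : Step z (k + m + j) := hst _ (by omega) (by omega)
    have s2 : Step z (k + j) := hst _ (by omega) (by omega)
    have e1 : nx (ix z (k + m + j)) (r11 z (k + m + j)) (r13 z (k + m + j)) =
        some (uu z (k + m + j), ix z (k + m + j + 1)) := by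
      rcases step_rank s1 with h | h
      · have a := hR (k + m + j + 1) (by omega) (by omega)
        have b := hR (k + m + j) (by omega) (by omega)
        rw [a, b] at h
        exact absurd h (lt_irrefl _)
      · exact h.2.2.2
    have e2 : nx (ix z (k + j)) (r11 z (k + j)) (r13 z (k + j)) =
        some (uu z (k + j), ix z (k + j + 1)) := by
      rcases step_rank s2 with h | h
      · have a := hR (k + j + 1) (by omega) (by omega)
        have b := hR (k + j) (by omega) (by omega)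
        rw [a, b] at h
        exact absurd h (lt_irrefl _)
      · exact h.2.2.2
    rw [h1, h2, h3, e2] at e1
    have e3 := Option.some.inj e1
    have e4 : uu z (k + m + j) = uu z (k + j) := (congrArg Prod.fst e3).symm
    have e5 : ix z (k + m + j + 1) = ix z (k + j + 1) := (congrArg Prod.snd e3).symm
    refine ⟨e5, ?_, ?_, ?_⟩
    · have := step_r11 s1
      have h' := step_r11 s2
      rw [h2, e4, ← h'] at this
      exact this
    · have := step_r13 s1
      have h' := step_r13 s2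
      rw [h3, e4, ← h'] at this
      exact this
    · intro i hi'
      rcases Nat.lt_succ_iff_lt_or_eq.mp hi' with h | h
      · exact h4 i h
      · rw [h]; exact e4

/-- Repeating letters make a difference divisible by a power of `5`. -/
theorem diff_pow {k m L : ℕ} (hst : ∀ n, k ≤ n → n < k + m + L → Step z n)
    (hu : ∀ i < L, uu z (k + m + i) = uu z (k + i)) :
    (5 : ℤ) ^ L * (ss z (k + m + L) - ss z (k + L)) = 7 ^ L * (ss z (k + m) - ss z k) := by
  induction L with
  | zero => simp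
  | succ L ih =>
    have h1 := ih (fun n a b => hst n a (by omega)) (fun i hi' => hu i (by omega))
    have h2 := step_uu (hst (k + m + L) (by omega) (by omega))
    have h3 := step_uu (hst (k + L) (by omega) (by omega))
    have h4 := hu L (by omega)
    rw [h4, h3] at h2
    have h5 : 5 * (ss z (k + m + L + 1) - ss z (k + L + 1)) =
        7 * (ss z (k + m + L) - ss z (k + L)) := by linarith
    have e1 : k + m + (L + 1) = k + m + L + 1 := rfl
    have e2 : k + (L + 1) = k + L + 1 := rfl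
    rw [e1, e2, pow_succ, pow_succ]
    calc (5 : ℤ) ^ L * 5 * (ss z (k + m + L + 1) - ss z (k + L + 1))
        = 5 ^ L * (5 * (ss z (k + m + L + 1) - ss z (k + L + 1))) := by ring
      _ = 7 * (5 ^ L * (ss z (k + m + L) - ss z (k + L))) := by rw [h5]; ring
      _ = 7 ^ L * 7 * (ss z (k + m) - ss z k) := by rw [h1]; ring

theorem pow_dvd_diff {k m L : ℕ} (hst : ∀ n, k ≤ n → n < k + m + L → Step z n)
    (hu : ∀ i < L, uu z (k + m + i) = uu z (k + i)) :
    (5 : ℤ) ^ L ∣ ss z (k + m) - ss z k := by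
  have h := diff_pow hst hu
  have h1 : (5 : ℤ) ^ L ∣ 7 ^ L * (ss z (k + m) - ss z k) := ⟨_, h.symm⟩
  have h2 : IsCoprime ((5 : ℤ) ^ L) (7 ^ L) := by
    apply IsCoprime.pow
    exact ⟨3, -2, by norm_num⟩
  exact h2.dvd_of_dvd_mul_left h1

/-- The terms are different when the real sequence is large. -/
theorem ss_ne {k m : ℕ} (hm : 1 ≤ m) (hk : 5 / 2 ≤ |xx z k|) : ss z (k + m) ≠ ss z k := by
  have h1 : xx z (k + m) = xx z k * (7 / 5) ^ m := by unfold xx; rw [pow_add]; ring
  have h2 : (7 / 5 : ℝ) ≤ (7 / 5) ^ m := by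
    calc (7 / 5 : ℝ) = (7 / 5) ^ 1 := (pow_one _).symm
      _ ≤ (7 / 5) ^ m := pow_le_pow_right₀ (by norm_num) hm
  intro h
  unfold ss at h
  have h3 := Int.abs_sub_lt_one_of_floor_eq_floor h
  rw [h1] at h3
  have h4 : xx z k * (7 / 5) ^ m - xx z k = xx z k * ((7 / 5) ^ m - 1) := by ring
  rw [h4, abs_mul, abs_of_nonneg (by linarith : (0 : ℝ) ≤ (7 / 5) ^ m - 1)] at h3
  nlinarith

theorem abs_ss_le (k : ℕ) : |(ss z k : ℝ)| ≤ |xx z k| + 1 := by
  have h1 := Int.floor_le (xx z k)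
  have h2 := Int.lt_floor_add_one (xx z k)
  unfold ss
  rw [abs_le]
  constructor
  · have := neg_abs_le (xx z k); linarith
  · have := le_abs_self (xx z k); linarith

theorem abs_xx (k : ℕ) : |xx z k| = |z| * (7 / 5) ^ k := by
  unfold xx
  rw [abs_mul, abs_of_nonneg (by positivity : (0 : ℝ) ≤ (7 / 5) ^ k)]

/-- The length of a period block. -/
theorem block_le {k m L B : ℕ} (hm : 1 ≤ m) (hk : 5 / 2 ≤ |xx z k|)
    (hB : 2 * |z| + 2 ≤ 5 ^ B) (hst : ∀ n, k ≤ n → n < k + m + L → Step z n)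
    (hu : ∀ i < L, uu z (k + m + i) = uu z (k + i)) : 19 * L ≤ 19 * B + 4 * (k + m) := by
  have h1 := pow_dvd_diff hst hu
  have h2 : ss z (k + m) - ss z k ≠ 0 := sub_ne_zero.mpr (ss_ne hm hk)
  have h3 : (5 : ℤ) ^ L ≤ |ss z (k + m) - ss z k| :=
    Int.le_of_dvd (abs_pos.mpr h2) ((dvd_abs _ _).mpr h1)
  have h4 : (5 : ℝ) ^ L ≤ |(ss z (k + m) : ℝ) - ss z k| := by exact_mod_cast h3
  have h5 : |(ss z (k + m) : ℝ) - ss z k| ≤ 5 ^ B * (7 / 5) ^ (k + m) := by
    have a1 := abs_ss_le (z := z) (k + m)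
    have a2 := abs_ss_le (z := z) k
    rw [abs_xx] at a1 a2
    have a3 := abs_sub (ss z (k + m) : ℝ) (ss z k)
    have a4 : (7 / 5 : ℝ) ^ k ≤ (7 / 5) ^ (k + m) :=
      pow_le_pow_right₀ (by norm_num) (by omega)
    have a5 : (1 : ℝ) ≤ (7 / 5) ^ (k + m) := one_le_pow₀ (by norm_num)
    have a6 := abs_nonneg z
    calc |(ss z (k + m) : ℝ) - ss z k| ≤ |(ss z (k + m) : ℝ)| + |(ss z k : ℝ)| := a3
      _ ≤ (|z| * (7 / 5) ^ (k + m) + 1) + (|z| * (7 / 5) ^ k + 1) := add_le_add a1 a2
      _ ≤ (2 * |z| + 2) * (7 / 5) ^ (k + m) := by nlinarith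
      _ ≤ 5 ^ B * (7 / 5) ^ (k + m) := by
        apply mul_le_mul_of_nonneg_right hB (by positivity)
  have h6 : (5 : ℝ) ^ L ≤ 5 ^ B * (7 / 5) ^ (k + m) := le_trans h4 h5
  have h7 : ((5 : ℝ) ^ L) ^ 19 ≤ (5 ^ B * (7 / 5) ^ (k + m)) ^ 19 :=
    pow_le_pow_left₀ (by positivity) h6 19
  have h8 : ((7 / 5 : ℝ) ^ (k + m)) ^ 19 ≤ 5 ^ (4 * (k + m)) := by
    rw [← pow_mul, mul_comm (k + m) 19, pow_mul, pow_mul]
    exact pow_le_pow_left₀ (by positivity) (by norm_num) _
  have h9 : (5 : ℝ) ^ (19 * L) ≤ 5 ^ (19 * B + 4 * (k + m)) := by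
    calc (5 : ℝ) ^ (19 * L) = (5 ^ L) ^ 19 := by rw [← pow_mul, mul_comm]
      _ ≤ (5 ^ B * (7 / 5) ^ (k + m)) ^ 19 := h7
      _ = (5 ^ B) ^ 19 * ((7 / 5) ^ (k + m)) ^ 19 := mul_pow _ _ _
      _ ≤ (5 ^ B) ^ 19 * 5 ^ (4 * (k + m)) := by
        apply mul_le_mul_of_nonneg_left h8 (by positivity)
      _ = 5 ^ (19 * B + 4 * (k + m)) := by rw [← pow_mul, ← pow_add, mul_comm B 19]
  exact (pow_le_pow_iff_right₀ (by norm_num)).mp h9

/-- A run of constant rank is short. -/
theorem run_le {k0 k1 B : ℕ} (hk : ∀ k, k0 ≤ k → 5 / 2 ≤ |xx z k|) (hB : 2 * |z| + 2 ≤ 5 ^ B)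
    (h01 : k0 ≤ k1) (hst : ∀ n, k0 ≤ n → n < k1 → Step z n)
    (hR : ∀ n, k0 ≤ n → n ≤ k1 → RR z n = RR z k0) :
    19 * k1 ≤ 23 * k0 + (46 * 3004 + 19 * B) := by
  by_cases hlen : k1 < k0 + 3004
  · omega
  push Not at hlen
  have hmaps : Set.MapsTo (fun n => st z n) (Finset.Icc k0 (k0 + 3003) : Set ℕ)
      (Finset.range 3003 : Set ℕ) := by
    intro n hn
    have hn' := Finset.mem_coe.mp hn
    rw [Finset.mem_Icc] at hn'
    have hs : Step z n := hst n hn'.1 (by omega)
    obtain ⟨h3, _⟩ := ix_spec z n hs.1.2.1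
    have a1 : r11 z n < 11 := by unfold r11; omega
    have a2 : r13 z n < 13 := by unfold r13; omega
    apply Finset.mem_coe.mpr
    rw [Finset.mem_range]
    show (ix z n * 11 + r11 z n) * 13 + r13 z n < 3003
    omega
  have hcard : (Finset.range 3003).card < (Finset.Icc k0 (k0 + 3003)).card := by
    rw [Finset.card_range, Nat.card_Icc]; omega
  obtain ⟨x, hx, y, hy, hxy, hxy'⟩ :=
    Finset.exists_ne_map_eq_of_card_lt_of_maps_to hcard hmaps
  have key : ∀ a b : ℕ, a ∈ Finset.Icc k0 (k0 + 3003) → b ∈ Finset.Icc k0 (k0 + 3003) → a < b →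
      st z a = st z b → 19 * k1 ≤ 23 * k0 + (46 * 3004 + 19 * B) := by
    intro a b ha hb hab hsab
    rw [Finset.mem_Icc] at ha hb
    obtain ⟨m, rfl⟩ := Nat.exists_eq_add_of_lt hab
    have hL := run_periodic (m := m + 1) hst hR ha.1 (by rw [← add_assoc]; exact hsab.symm)
      (k1 - (a + (m + 1))) (by omega)
    have hb' := block_le (k := a) (m := m + 1) (L := k1 - (a + (m + 1))) (B := B) (by omega)
      (hk a ha.1) hB (fun n h1 h2 => hst n (by omega) (by omega)) hL.2.2.2
    omega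
  rcases lt_or_gt_of_ne hxy with h | h
  · exact key x y hx hy h hxy'
  · exact key y x hy hx h hxy'.symm

/-- The main estimate by induction on the rank. -/
theorem window_le (z : ℝ) (N1 B : ℕ) (hk : ∀ k, N1 ≤ k → 5 / 2 ≤ |xx z k|)
    (hB : 2 * |z| + 2 ≤ 5 ^ B) : ∀ r : ℕ, ∃ K : ℝ, 0 ≤ K ∧ ∀ N E : ℕ, N1 ≤ N → N ≤ E →
      (∀ n, N ≤ n → n < E → Step z n) → RR z N ≤ r →
        (E : ℝ) ≤ (23 / 19) ^ (r / 32) * N + K := by
  intro r
  induction r with
  | zero =>
    refine ⟨0, le_refl _, ?_⟩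
    intro N E _ hE hst hR
    have hNE : E = N := by
      by_contra hne
      rcases step_rank (hst N le_rfl (by omega)) with h | h
      · omega
      · exact h.2.2.1 (by omega)
    rw [hNE]
    simp
  | succ r ih =>
    obtain ⟨K, hK, hKP⟩ := ih
    have hc : (1 : ℝ) ≤ (23 / 19) ^ (r / 32) := one_le_pow₀ (by norm_num)
    refine ⟨K + (23 / 19) ^ (r / 32) * ((46 * 3004 + 19 * B) / 19 + 1), by positivity, ?_⟩
    intro N E hN hE hst hR
    have hC : (0 : ℝ) ≤ (46 * 3004 + 19 * (B : ℝ)) / 19 := by positivity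
    have hN0 : (0 : ℝ) ≤ N := Nat.cast_nonneg _
    have hmono : (23 / 19 : ℝ) ^ (r / 32) ≤ (23 / 19) ^ ((r + 1) / 32) :=
      pow_le_pow_right₀ (by norm_num) (by omega)
    by_cases hr : RR z N ≤ r
    · have := hKP N E hN hE hst hr
      nlinarith
    have hRN : RR z N = r + 1 := by omega
    -- the last index of the run
    classical
    let P : ℕ → Prop := fun n => N ≤ n ∧ ∀ k, N ≤ k → k ≤ n → RR z k = r + 1
    have hPN : P N := ⟨le_rfl, fun k h1 h2 => by rw [le_antisymm h2 h1]; exact hRN⟩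
    obtain ⟨k1, hk1E, hP1, hmax⟩ : ∃ k1, k1 ≤ E ∧ P k1 ∧ (k1 < E → ¬ P (k1 + 1)) := by
      refine ⟨Nat.findGreatest P E, Nat.findGreatest_le E, Nat.findGreatest_spec hE hPN, ?_⟩
      intro hlt hP
      have := Nat.le_findGreatest (P := P) (n := E) (m := Nat.findGreatest P E + 1) (by omega) hP
      omega
    obtain ⟨hNk, hrun⟩ := hP1
    have hnext : k1 < E → RR z (k1 + 1) ≤ r := by
      intro hlt
      have h1 := hmax hlt
      have h2 := hrun k1 hNk le_rfl
      rcases step_rank (hst k1 hNk hlt) with h | h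
      · omega
      · exfalso
        apply h1
        refine ⟨by omega, fun k hk1 hk2 => ?_⟩
        rcases Nat.lt_or_ge k (k1 + 1) with h3 | h3
        · exact hrun k hk1 (by omega)
        · have : k = k1 + 1 := by omega
          rw [this, h.1, h2]
    have hlen : 19 * k1 ≤ 23 * N + (46 * 3004 + 19 * B) :=
      run_le (fun k h => hk k (le_trans hN h)) hB hNk
        (fun n h1 h2 => hst n h1 (by omega))
        (fun n h1 h2 => by rw [hrun n h1 h2, hRN])
    have hlen' : (k1 : ℝ) ≤ 23 / 19 * N + (46 * 3004 + 19 * B) / 19 := by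
      have : (19 * k1 : ℝ) ≤ 23 * N + (46 * 3004 + 19 * B) := by exact_mod_cast hlen
      linarith
    by_cases hdiv : (r + 1) % 32 = 0
    · have hpow : (23 / 19 : ℝ) ^ ((r + 1) / 32) = (23 / 19) ^ (r / 32) * (23 / 19) := by
        rw [← pow_succ]
        congr 1
        omega
      rw [hpow]
      rcases Nat.lt_or_ge k1 E with hlt | hge
      · have h1 := hKP (k1 + 1) E (by omega) (by omega) (fun n a b => hst n (by omega) b)
          (hnext hlt)
        push_cast at h1
        have h2 : (23 / 19 : ℝ) ^ (r / 32) * (k1 + 1) ≤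
            (23 / 19) ^ (r / 32) * (23 / 19 * N + (46 * 3004 + 19 * B) / 19 + 1) :=
          mul_le_mul_of_nonneg_left (by linarith) (by positivity)
        nlinarith
      · have : E = k1 := le_antisymm hge hk1E
        rw [this]
        nlinarith
    · have hk1N : k1 = N := by
        by_contra hne
        rcases step_rank (hst N le_rfl (by omega)) with h | h
        · have := hrun (N + 1) (by omega) (by omega)
          omega
        · rw [hRN] at h
          exact hdiv h.2.1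
      have hpow : (r + 1) / 32 = r / 32 := by omega
      rw [hpow]
      rcases Nat.lt_or_ge k1 E with hlt | hge
      · have h1 := hKP (k1 + 1) E (by omega) (by omega) (fun n a b => hst n (by omega) b)
          (hnext hlt)
        push_cast at h1
        rw [hk1N] at h1
        nlinarith
      · have : E = N := by rw [← hk1N]; exact le_antisymm hge hk1E
        rw [this]
        nlinarith

/-- In every window `[N, 2N]`, `N` large, there is a term which is not good, or a zero letter. -/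
theorem exists_not_step {z : ℝ} (hz : z ≠ 0) : ∃ N0 : ℕ, ∀ N, N0 ≤ N →
    ∃ n, N ≤ n ∧ n < 2 * N ∧ ¬ Step z n := by
  have hz' : 0 < |z| := abs_pos.mpr hz
  obtain ⟨N1, hN1⟩ : ∃ N1 : ℕ, ∀ k, N1 ≤ k → 5 / 2 ≤ |xx z k| := by
    obtain ⟨N1, h⟩ := pow_unbounded_of_one_lt (5 / 2 / |z|) (by norm_num : (1 : ℝ) < 7 / 5)
    refine ⟨N1, fun k hk => ?_⟩
    rw [abs_xx]
    have h1 : (7 / 5 : ℝ) ^ N1 ≤ (7 / 5) ^ k := pow_le_pow_right₀ (by norm_num) hk
    rw [div_lt_iff₀ hz'] at h
    nlinarith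
  obtain ⟨B, hB⟩ := pow_unbounded_of_one_lt (2 * |z| + 2) (by norm_num : (1 : ℝ) < 5)
  obtain ⟨K, hK, hKP⟩ := window_le z N1 B hN1 hB.le 127
  obtain ⟨N2, hN2⟩ := exists_nat_gt (K * 5)
  refine ⟨max N1 N2, fun N hN => ?_⟩
  by_contra hcon
  push Not at hcon
  have h1 := hKP N (2 * N) (le_trans (le_max_left _ _) hN) (by omega)
    (fun n a b => hcon n a b) (by have := RR_lt z N; omega)
  have h2 : (N2 : ℝ) ≤ N := by exact_mod_cast le_trans (le_max_right _ _) hN
  norm_num at h1
  nlinarith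

end Pool.Agent.helper48.FL75
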