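import Pool.Agent.helper48.FL.T75

/-!
# The paths of the automaton for `⌊z (7/5)^n⌋`
-/

namespace Pool.Agent.helper48.FL75

theorem cover1 (Y : ℝ) (h0 : 0 ≤ Y) (h1 : Y < 21875) : ∃ i < 21, md.getD i 0 = 1 ∧
    ((lo.getD i 0 : ℕ) : ℝ) ≤ Y ∧ Y < ((hi.getD i 0 : ℕ) : ℝ) := by
  rcases lt_or_ge Y 875 with h | h
  · exact ⟨0, by norm_num, rfl, by norm_num [lo]; linarith, by norm_num [hi]; linarith⟩
  rcases lt_or_ge Y 1267 with h | h
  · exact ⟨1, by norm_num, rfl, by norm_num [lo]; linarith, by norm_num [hi]; linarith⟩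
  rcases lt_or_ge Y 3325 with h | h
  · exact ⟨2, by norm_num, rfl, by norm_num [lo]; linarith, by norm_num [hi]; linarith⟩
  rcases lt_or_ge Y 4375 with h | h
  · exact ⟨3, by norm_num, rfl, by norm_num [lo]; linarith, by norm_num [hi]; linarith⟩
  rcases lt_or_ge Y 8750 with h | h
  · exact ⟨4, by norm_num, rfl, by norm_num [lo]; linarith, by norm_num [hi]; linarith⟩
  rcases lt_or_ge Y 9375 with h | h
  · exact ⟨5, by norm_num, rfl, by norm_num [lo]; linarith, by norm_num [hi]; linarith⟩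
  rcases lt_or_ge Y 12500 with h | h
  · exact ⟨6, by norm_num, rfl, by norm_num [lo]; linarith, by norm_num [hi]; linarith⟩
  rcases lt_or_ge Y 13125 with h | h
  · exact ⟨7, by norm_num, rfl, by norm_num [lo]; linarith, by norm_num [hi]; linarith⟩
  rcases lt_or_ge Y 13405 with h | h
  · exact ⟨8, by norm_num, rfl, by norm_num [lo]; linarith, by norm_num [hi]; linarith⟩
  rcases lt_or_ge Y 14875 with h | h
  · exact ⟨9, by norm_num, rfl, by norm_num [lo]; linarith, by norm_num [hi]; linarith⟩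
  rcases lt_or_ge Y 18750 with h | h
  · exact ⟨10, by norm_num, rfl, by norm_num [lo]; linarith, by norm_num [hi]; linarith⟩
  rcases lt_or_ge Y 21000 with h | h
  · exact ⟨11, by norm_num, rfl, by norm_num [lo]; linarith, by norm_num [hi]; linarith⟩
  exact ⟨12, by norm_num, rfl, by norm_num [lo]; linarith, by norm_num [hi]; linarith⟩

theorem cover2 (Y : ℝ) (h0 : 0 ≤ Y) (h1 : Y < 21875) : ∃ i < 21, md.getD i 0 = 2 ∧
    ((lo.getD i 0 : ℕ) : ℝ) ≤ Y ∧ Y < ((hi.getD i 0 : ℕ) : ℝ) := by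
  rcases lt_or_ge Y 3125 with h | h
  · exact ⟨13, by norm_num, rfl, by norm_num [lo]; linarith, by norm_num [hi]; linarith⟩
  rcases lt_or_ge Y 6250 with h | h
  · exact ⟨14, by norm_num, rfl, by norm_num [lo]; linarith, by norm_num [hi]; linarith⟩
  rcases lt_or_ge Y 9870 with h | h
  · exact ⟨15, by norm_num, rfl, by norm_num [lo]; linarith, by norm_num [hi]; linarith⟩
  rcases lt_or_ge Y 13300 with h | h
  · exact ⟨16, by norm_num, rfl, by norm_num [lo]; linarith, by norm_num [hi]; linarith⟩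
  rcases lt_or_ge Y 15750 with h | h
  · exact ⟨17, by norm_num, rfl, by norm_num [lo]; linarith, by norm_num [hi]; linarith⟩
  rcases lt_or_ge Y 17500 with h | h
  · exact ⟨18, by norm_num, rfl, by norm_num [lo]; linarith, by norm_num [hi]; linarith⟩
  rcases lt_or_ge Y 18750 with h | h
  · exact ⟨19, by norm_num, rfl, by norm_num [lo]; linarith, by norm_num [hi]; linarith⟩
  exact ⟨20, by norm_num, rfl, by norm_num [lo]; linarith, by norm_num [hi]; linarith⟩

section Path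

variable (z : ℝ)

/-- The real sequence. -/
noncomputable def xx (n : ℕ) : ℝ := z * (7 / 5) ^ n

/-- The integer sequence. -/
noncomputable def ss (n : ℕ) : ℤ := ⌊xx z n⌋

/-- The scaled fractional part. -/
noncomputable def yy (n : ℕ) : ℝ := 21875 * Int.fract (xx z n)

/-- The letters. -/
noncomputable def uu (n : ℕ) : ℕ := (5 * ss z (n + 1) - 7 * ss z n + 4).toNat

/-- The residues modulo `11`. -/
noncomputable def r11 (n : ℕ) : ℕ := (ss z n % 11).toNat

/-- The residues modulo `13`. -/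
noncomputable def r13 (n : ℕ) : ℕ := (ss z n % 13).toNat

theorem xx_succ (n : ℕ) : 5 * xx z (n + 1) = 7 * xx z n := by
  unfold xx; rw [pow_succ]; ring

theorem yy_nonneg (n : ℕ) : 0 ≤ yy z n := by
  unfold yy; have := Int.fract_nonneg (xx z n); linarith

theorem yy_lt (n : ℕ) : yy z n < 21875 := by
  unfold yy; have := Int.fract_lt_one (xx z n); linarith

/-- The relation between consecutive fractional parts. -/
theorem yy_succ (n : ℕ) :
    5 * yy z (n + 1) = 7 * yy z n - 21875 * ((5 * ss z (n + 1) - 7 * ss z n : ℤ) : ℝ) := by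
  have h := xx_succ z n
  have h1 : xx z n = ss z n + Int.fract (xx z n) := (Int.floor_add_fract _).symm
  have h2 : xx z (n + 1) = ss z (n + 1) + Int.fract (xx z (n + 1)) := (Int.floor_add_fract _).symm
  unfold yy
  push_cast
  linarith

/-- The letter is between `-4` and `6`. -/
theorem letter_bd (n : ℕ) : -5 < 5 * ss z (n + 1) - 7 * ss z n ∧
    5 * ss z (n + 1) - 7 * ss z n < 7 := by
  have h := yy_succ z n
  have h1 := yy_nonneg z n
  have h2 := yy_lt z n
  have h3 := yy_nonneg z (n + 1)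
  have h4 := yy_lt z (n + 1)
  constructor
  · have : ((-5 : ℤ) : ℝ) < ((5 * ss z (n + 1) - 7 * ss z n : ℤ) : ℝ) := by
      push_cast at h ⊢; linarith
    exact_mod_cast this
  · have : ((5 * ss z (n + 1) - 7 * ss z n : ℤ) : ℝ) < ((7 : ℤ) : ℝ) := by
      push_cast at h ⊢; linarith
    exact_mod_cast this

/-- The term is prime to `2 · 3 · 11 · 13`. -/
def Good (n : ℕ) : Prop :=
  ss z n % 2 ≠ 0 ∧ ss z n % 3 ≠ 0 ∧ ss z n % 11 ≠ 0 ∧ ss z n % 13 ≠ 0

/-- Both terms are good and the letter is not zero. -/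
def Step (n : ℕ) : Prop := Good z n ∧ Good z (n + 1) ∧ 5 * ss z (n + 1) ≠ 7 * ss z n

theorem exists_idx : ∃ f : ℕ → ℕ, ∀ n, ss z n % 3 ≠ 0 → f n < 21 ∧
    ((md.getD (f n) 0 : ℕ) : ℤ) = ss z n % 3 ∧ ((lo.getD (f n) 0 : ℕ) : ℝ) ≤ yy z n ∧
    yy z n < ((hi.getD (f n) 0 : ℕ) : ℝ) := by
  have h : ∀ n, ∃ i, ss z n % 3 ≠ 0 → i < 21 ∧
    ((md.getD i 0 : ℕ) : ℤ) = ss z n % 3 ∧ ((lo.getD i 0 : ℕ) : ℝ) ≤ yy z n ∧
    yy z n < ((hi.getD i 0 : ℕ) : ℝ) := by
    intro n
    have h3 : ss z n % 3 = 0 ∨ ss z n % 3 = 1 ∨ ss z n % 3 = 2 := by omega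
    rcases h3 with h3 | h3 | h3
    · exact ⟨0, fun h => absurd h3 h⟩
    · obtain ⟨i, hi', h1, h2⟩ := cover1 (yy z n) (yy_nonneg z n) (yy_lt z n)
      exact ⟨i, fun _ => ⟨hi', by rw [h1, h3]; rfl, h2⟩⟩
    · obtain ⟨i, hi', h1, h2⟩ := cover2 (yy z n) (yy_nonneg z n) (yy_lt z n)
      exact ⟨i, fun _ => ⟨hi', by rw [h1, h3]; rfl, h2⟩⟩
  exact ⟨fun n => (h n).choose, fun n => (h n).choose_spec⟩

/-- The index of the interval. -/
noncomputable def ix (n : ℕ) : ℕ := (exists_idx z).choose n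

theorem ix_spec (n : ℕ) (h : ss z n % 3 ≠ 0) : ix z n < 21 ∧
    ((md.getD (ix z n) 0 : ℕ) : ℤ) = ss z n % 3 ∧ ((lo.getD (ix z n) 0 : ℕ) : ℝ) ≤ yy z n ∧
    yy z n < ((hi.getD (ix z n) 0 : ℕ) : ℝ) := (exists_idx z).choose_spec n h

/-- The rank along the sequence. -/
noncomputable def RR (n : ℕ) : ℕ := rk (ix z n) (r11 z n) (r13 z n)

theorem RR_lt (n : ℕ) : RR z n < 128 := rk_lt _ _ _

variable {z}

theorem step_uu {n : ℕ} (h : Step z n) : (uu z n : ℤ) = 5 * ss z (n + 1) - 7 * ss z n + 4 := by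
  have h1 := letter_bd z n
  unfold uu
  rw [Int.toNat_of_nonneg]
  omega

theorem step_mem {n : ℕ} (h : Step z n) : uu z n ∈ [0, 2, 6, 8, 10] := by
  have h1 := letter_bd z n
  have h2 := step_uu h
  obtain ⟨⟨ha, _, _, _⟩, ⟨hb, _, _, _⟩, hne⟩ := h
  have h3 : uu z n = 0 ∨ uu z n = 2 ∨ uu z n = 6 ∨ uu z n = 8 ∨ uu z n = 10 := by omega
  rcases h3 with h3 | h3 | h3 | h3 | h3 <;> rw [h3] <;> simp

theorem step_r11 {n : ℕ} (h : Step z n) : r11 z (n + 1) = n11 (r11 z n) (uu z n) := by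
  have h2 := step_uu h
  unfold r11 n11
  omega

theorem step_r13 {n : ℕ} (h : Step z n) : r13 z (n + 1) = n13 (r13 z n) (uu z n) := by
  have h2 := step_uu h
  unfold r13 n13
  omega

theorem step_edge {n : ℕ} (h : Step z n) : edge (ix z n) (uu z n) (ix z (n + 1)) = true := by
  have h2 := step_uu h
  obtain ⟨h3, h4, h5, h6⟩ := ix_spec z n h.1.2.1
  obtain ⟨h3', h4', h5', h6'⟩ := ix_spec z (n + 1) h.2.1.2.1
  have hy := yy_succ z n
  have h7 : ((5 * ss z (n + 1) - 7 * ss z n : ℤ) : ℝ) = (uu z n : ℝ) - 4 := by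
    have : (5 * ss z (n + 1) - 7 * ss z n : ℤ) = (uu z n : ℤ) - 4 := by omega
    rw [this]; push_cast; ring
  rw [h7] at hy
  have e1 : md.getD (ix z (n + 1)) 0 = (2 * md.getD (ix z n) 0 + 2 * uu z n + 1) % 3 := by
    omega
  have e2 : 5 * lo.getD (ix z (n + 1)) 0 + 21875 * uu z n < 7 * hi.getD (ix z n) 0 + 87500 := by
    have : (5 * (lo.getD (ix z (n + 1)) 0 : ℕ) + 21875 * (uu z n : ℕ) : ℝ) <
        7 * (hi.getD (ix z n) 0 : ℕ) + 87500 := by linarith
    exact_mod_cast this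
  have e3 : 7 * lo.getD (ix z n) 0 + 87500 < 5 * hi.getD (ix z (n + 1)) 0 + 21875 * uu z n := by
    have : (7 * (lo.getD (ix z n) 0 : ℕ) + 87500 : ℝ) <
        5 * (hi.getD (ix z (n + 1)) 0 : ℕ) + 21875 * (uu z n : ℕ) := by linarith
    exact_mod_cast this
  simp only [edge, Bool.and_eq_true, beq_iff_eq, decide_eq_true_eq]
  exact ⟨⟨e1, e2⟩, e3⟩

theorem step_rank {n : ℕ} (h : Step z n) : RR z (n + 1) < RR z n ∨
    (RR z (n + 1) = RR z n ∧ RR z n % 32 = 0 ∧ RR z n ≠ 0 ∧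
      nx (ix z n) (r11 z n) (r13 z n) = some (uu z n, ix z (n + 1))) := by
  obtain ⟨h3, _⟩ := ix_spec z n h.1.2.1
  obtain ⟨h3', _⟩ := ix_spec z (n + 1) h.2.1.2.1
  have a1 : r11 z n < 11 := by unfold r11; omega
  have a2 : r13 z n < 13 := by unfold r13; omega
  have a3 : r11 z n ≠ 0 := by have := h.1.2.2.1; unfold r11; omega
  have a4 : r13 z n ≠ 0 := by have := h.1.2.2.2; unfold r13; omega
  have b3 : r11 z (n + 1) ≠ 0 := by have := h.2.1.2.2.1; unfold r11; omega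
  have b4 : r13 z (n + 1) ≠ 0 := by have := h.2.1.2.2.2; unfold r13; omega
  rw [step_r11 h] at b3
  rw [step_r13 h] at b4
  have := rank_step h3 a1 a2 a3 a4 (edge_mem h3 (step_mem h) h3' (step_edge h)) b3 b4
  unfold RR
  rw [step_r11 h, step_r13 h]
  exact this

end Path

end Pool.Agent.helper48.FL75
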